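import Pool.Agent.helper47.SC.Spec

open scoped Topology ContDiff
open Set Filter Metric MeasureTheory

namespace Pool.Agent.SC

theorem BLO (h1 : GGB_stmt) (h2 : DOM_stmt) : BLO_stmt := by
  intro s m M hm hu hM p₀ hp₀ hnot R
  obtain ⟨-, g2, g3, -, g5, -, g7, -⟩ := h1 s m hm hu
  obtain ⟨k₀, hk₀⟩ := exists_nat_ge (max R (‖p₀.1‖ + 1))
  have hR : R ≤ k₀ := (le_max_left _ _).trans hk₀
  have hx₀ : ‖p₀.1‖ + 1 ≤ k₀ := (le_max_right _ _).trans hk₀
  have e1 : ∀ᶠ p in 𝓝 p₀, ∀ j ∈ Finset.range (k₀ + 1), 3 / 2 < ‖BB s m j p‖ := by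
    rw [Filter.eventually_all_finset]
    intro j _
    have hc : ContinuousAt (fun p => ‖BB s m j p‖) p₀ := (g7 j).continuous.norm.continuousAt
    exact hc.eventually (lt_mem_nhds (by linarith [g3 j p₀ hp₀ hnot]))
  have e2 : ∀ᶠ p : C2 in 𝓝 p₀, ‖p.1‖ < k₀ + 1 := by
    have hc : ContinuousAt (fun p : C2 => ‖p.1‖) p₀ := by fun_prop
    exact hc.eventually (gt_mem_nhds (by linarith))
  filter_upwards [e1, e2] with p hp1 hp2 hpX
  have hq : ‖p.2‖ < 1 / 4 := hpX.1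
  obtain ⟨i₀, hi₀⟩ := hpX.2
  have hsm : ∀ j, i₀ < j → 8 * ‖BB s m j p‖ ≤ 3 / 4 := g5 i₀ p hq hi₀
  -- largest index with norm at least 3/2
  have hex : ∃ k, k₀ ≤ k ∧ 3 / 2 ≤ ‖BB s m k p‖ ∧ ∀ j, k < j → ‖BB s m j p‖ < 3 / 2 := by
    classical
    let P : ℕ → Prop := fun k => 3 / 2 ≤ ‖BB s m k p‖
    have hP0 : P k₀ := (hp1 k₀ (by simp)).le
    have hle : k₀ ≤ i₀ := by
      by_contra hcon
      have := hsm k₀ (by omega)
      have h3 : 3 / 2 ≤ ‖BB s m k₀ p‖ := hP0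
      linarith
    refine ⟨Nat.findGreatest P i₀, Nat.le_findGreatest hle hP0, Nat.findGreatest_spec hle hP0, ?_⟩
    intro j hj
    by_contra hcon
    rw [not_lt] at hcon
    by_cases hji : j ≤ i₀
    · exact Nat.findGreatest_is_greatest hj hji hcon
    · have := hsm j (by omega)
      linarith
  obtain ⟨k, hk, hkd, hkl⟩ := hex
  have hk' : (k₀ : ℝ) ≤ k := by exact_mod_cast hk
  have hstep : ∀ j, k < j → ‖BB s m (j + 1) p‖ ≤ (3 / 4) ^ 10 := by
    intro j hj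
    have h3 : ‖BB s m j p‖ / 2 ≤ 3 / 4 := by linarith [hkl j hj]
    calc ‖BB s m (j + 1) p‖ ≤ (‖BB s m j p‖ / 2) ^ (m (j + 1)) := g2 j p hq
      _ ≤ (3 / 4) ^ (m (j + 1)) := pow_le_pow_left₀ (by positivity) h3 _
      _ ≤ (3 / 4) ^ 10 := pow_le_pow_of_le_one (by norm_num) (by norm_num) (hm _)
  by_cases hcase : ‖BB s m (k + 1) p‖ ≤ 3 / 4
  · left
    have h3 := h2 s m M hm hu hM 1 (Or.inl rfl) k p hpX (by linarith) (by simpa using hkd) (by
      intro j hj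
      rw [one_mul]
      rcases Nat.lt_or_ge (k + 1) j with h | h
      · obtain ⟨i, rfl⟩ : ∃ i, j = i + 1 := ⟨j - 1, by omega⟩
        exact (hstep i (by omega)).trans (by norm_num)
      · have : j = k + 1 := by omega
        rw [this]; exact hcase)
    linarith
  · right
    rw [not_le] at hcase
    have h3 := h2 s m M hm hu hM 8 (Or.inr rfl) (k + 1) p hpX (by push_cast; linarith) (by
      rw [norm_mul]
      have : ‖(8 : ℂ)‖ = 8 := by simp
      rw [this]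
      linarith) (by
      intro j hj
      obtain ⟨i, rfl⟩ : ∃ i, j = i + 1 := ⟨j - 1, by omega⟩
      have h4 := hstep i (by omega)
      rw [norm_mul]
      have : ‖(8 : ℂ)‖ = 8 := by simp
      rw [this]
      calc 8 * ‖BB s m (i + 1) p‖ ≤ 8 * (3 / 4) ^ 10 := by linarith
        _ ≤ 3 / 4 := by norm_num)
    push_cast at h3
    linarith

end Pool.Agent.SC
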