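import Pool.Agent.helper47.SC.Spec

open scoped Topology ContDiff
open Set Filter Metric MeasureTheory

namespace Pool.Agent.SC

theorem DOM (h1 : GGB_stmt) : DOM_stmt := by
  intro s m M hm hu hM c hc κ p hp hx hdom hneg
  have hp2 : ‖p.2‖ < 1 / 4 := hp.1
  have hcn : ‖c‖ ≤ 8 := by
    rcases hc with rfl | rfl <;> simp
  obtain ⟨-, -, -, g4, -⟩ := h1 s m hm hu
  set f : ℕ → ℂ := fun k => (c * BB s m k p) ^ (M k) with hf
  have htail : ∀ j, ‖f (j + (κ + 1))‖ ≤ (1 / 2) ^ (j + 1) := by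
    intro j
    have h2 : ‖c * BB s m (j + (κ + 1)) p‖ ≤ 3 / 4 := hneg _ (by omega)
    calc ‖f (j + (κ + 1))‖ = ‖c * BB s m (j + (κ + 1)) p‖ ^ (M (j + (κ + 1))) := by
          rw [hf]; simp only [norm_pow]
      _ ≤ (3 / 4) ^ (M (j + (κ + 1))) := pow_le_pow_left₀ (norm_nonneg _) h2 _
      _ ≤ (1 / 2) ^ (j + (κ + 1) + 2) := hM.small _
      _ ≤ (1 / 2) ^ (j + 1) := pow_le_pow_of_le_one (by norm_num) (by norm_num) (by omega)
  have hgeo : HasSum (fun j : ℕ => (1 / 2 : ℝ) ^ (j + 1)) 1 := by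
    have := hasSum_geometric_two
    have h3 := this.mul_left (1 / 2 : ℝ)
    have h4 : (fun j : ℕ => (1 / 2 : ℝ) ^ (j + 1)) = fun j => 1 / 2 * (1 / 2) ^ j := by
      ext j; rw [pow_succ]; ring
    rw [h4]
    simpa using h3
  have hst : Summable fun j => f (j + (κ + 1)) := Summable.of_norm_bounded hgeo.summable htail
  have hs : Summable f := (summable_nat_add_iff (κ + 1)).1 hst
  have hsplit : hh s m M c p = ∑ k ∈ Finset.range (κ + 1), f k + ∑' j, f (j + (κ + 1)) :=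
    (hs.sum_add_tsum_nat_add (κ + 1)).symm
  have htn : ‖∑' j, f (j + (κ + 1))‖ ≤ 1 := by
    have := tsum_of_norm_bounded hgeo htail
    exact this
  have hlow : ‖∑ k ∈ Finset.range κ, f k‖ ≤
      ∑ j ∈ Finset.range κ, (8 * ((κ : ℝ) + 1) ^ (EE m (j + 1))) ^ (M j) := by
    refine norm_sum_le_of_le _ fun j _ => ?_
    rw [hf]
    simp only [norm_pow, norm_mul]
    refine pow_le_pow_left₀ (by positivity) ?_ _
    refine mul_le_mul hcn ?_ (norm_nonneg _) (by norm_num)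
    exact (g4 j p hp2).trans (pow_le_pow_left₀ (norm_nonneg _) hx _)
  have hκ : (3 / 2 : ℝ) ^ (M κ) ≤ ‖f κ‖ := by
    rw [hf]
    simp only [norm_pow]
    exact pow_le_pow_left₀ (by norm_num) hdom _
  have hbig := hM.big κ
  rw [hsplit, Finset.sum_range_succ]
  have h5 : f κ = (∑ k ∈ Finset.range κ, f k + f κ + ∑' j, f (j + (κ + 1))) -
      ∑ k ∈ Finset.range κ, f k - ∑' j, f (j + (κ + 1)) := by ring
  have h6 : ‖f κ‖ ≤ ‖∑ k ∈ Finset.range κ, f k + f κ + ∑' j, f (j + (κ + 1))‖ +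
      ‖∑ k ∈ Finset.range κ, f k‖ + ‖∑' j, f (j + (κ + 1))‖ := by
    conv_lhs => rw [h5]
    exact (norm_sub_le _ _).trans (add_le_add_left (norm_sub_le _ _) _)
  linarith

end Pool.Agent.SC
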