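import Pool.Agent.helper47.SC.Spec

/-!
# Row FIN: assembly
-/

open scoped Topology ContDiff
open Set Filter Metric MeasureTheory
open Pool.Agent.helper90.KMMP (levi hess)

namespace Pool.Agent.SC

theorem FIN (hNSQ : NSQ_stmt) (hDAT : DAT_stmt) (hEXP : EXP_stmt) (hMCH : MCH_stmt)
    (hGGB : GGB_stmt) (hHSM : HSM_stmt) (hBLO : BLO_stmt) (hOMC : OMC_stmt) (hSPC : SPC_stmt)
    (hYYO : YYO_stmt) (hCOR : COR_stmt) (hMEA : MEA_stmt) (hPPN : PPN_stmt) (hSHR : SHR_stmt) :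
    FIN_stmt := by
  obtain ⟨s, D, T, hD⟩ := hDAT
  obtain ⟨m, hm⟩ := hEXP D hD.one_le
  have hsmall : ∀ i, nsq (s i) ≤ 1 / 64 := fun i => hD.small _ (hD.mem i)
  have hcoord : ∀ t : C3, nsq t ≤ 1 / 64 → ‖t.1‖ ≤ 1 / 8 := by
    intro t ht
    have h1 := (hNSQ.2.2.2.2.2.2.2.1 t).trans ht
    have h2 : ‖t.1‖ ^ 2 ≤ (1 / 8) ^ 2 := by norm_num at h1 ⊢; linarith
    exact le_of_sq_le_sq h2 (by norm_num)
  have hu : ∀ i, ‖(s i).1‖ ≤ 1 / 4 := fun i =>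
    (hcoord _ (hsmall i)).trans (by norm_num)
  obtain ⟨M, hM⟩ := hMCH s m hm.1 hu
  have hX : IsOpen (XX s m) := (hGGB s m hm.1 hu).2.2.2.2.2.2.2
  have hY : IsOpen (YY s m) := hYYO s m hm.1 hsmall
  have h1 : ContDiffOn ℂ ∞ (hh s m M 1) (XX s m) := hHSM s m M hm.1 hu hM 1 (Or.inl rfl)
  have h2 : ContDiffOn ℂ ∞ (hh s m M 8) (XX s m) := hHSM s m M hm.1 hu hM 8 (Or.inr rfl)
  have hsub : {p : C2 | ‖p.1‖ < 1 ∧ ‖p.2‖ < 1 / 4} ⊆ XX s m := by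
    intro p hp
    exact ⟨hp.2, 0, hp.1⟩
  obtain ⟨hO, hconn, hfr⟩ := hOMC s m (hh s m M 1) (hh s m M 8) hm.1 hsmall hX h1 h2
  have hcore : {z : C4 | ‖z.1‖ < 1 ∧ (Psi (hh s m M 1) (hh s m M 8) z).2 ∈ T} ⊆
      core (Om s m (hh s m M 1) (hh s m M 8)) := by
    intro z hz
    have h3 := hCOR s D T m (hh s m M 1) (hh s m M 8) hD hm hX h1 h2 hY _ hz.2 z.1 hz.1
    have h4 : Phi (hh s m M 1) (hh s m M 8) (z.1, (Psi (hh s m M 1) (hh s m M 8) z).2) = z :=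
      (hSHR (hh s m M 1) (hh s m M 8)).2.1 z
    rw [h4] at h3
    exact h3
  have hpos : 0 < volume (core (Om s m (hh s m M 1) (hh s m M 8))) := by
    refine lt_of_lt_of_le ?_ (measure_mono hcore)
    refine hMEA T _ _ hD.closed ?_ hD.pos (h1.continuousOn.mono hsub) (h2.continuousOn.mono hsub)
    intro t ht
    exact lt_of_le_of_lt (hcoord t (hD.small t ht)) (by norm_num)
  refine ⟨Om s m (hh s m M 1) (hh s m M 8), hO, hconn, hfr, ?_, hpos, ?_⟩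
  · exact hSPC s D T m _ _ hD hm hX h1 h2 (hBLO s m M hm.1 hu hM)
  · intro hpp
    exact hpos.ne' (hPPN _ hpp)

end Pool.Agent.SC
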