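import Mathlib

/-!
# Cores of strictly pseudoconvex domains: the notions of the problem

Everything is written for a complex normed space `E` (for `ℂ^n` all norms give the same notions);
in the result `E = ℂ × ℂ × ℂ × ℂ`, that is `ℂ⁴`.
-/

open scoped Topology ContDiff
open Set Filter Metric MeasureTheory

namespace Pool.Agent.SC

variable {E : Type} [NormedAddCommGroup E] [NormedSpace ℂ E]

/-- The Levi form `∑ ∂²f/∂z_j∂z̄_k (z) v_j v̄_k` of the function `f` at the point `z`, applied to the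
vector `v`; it is equal to `(D²f(z)(v,v) + D²f(z)(iv,iv)) / 4`, where `D²f(z)` is the second real
derivative. -/
noncomputable def leviForm (f : E → ℝ) (z v : E) : ℝ :=
  (1 / 4) * (fderiv ℝ (fderiv ℝ f) z v v +
    fderiv ℝ (fderiv ℝ f) z (Complex.I • v) (Complex.I • v))

/-- The smooth function `f` is plurisubharmonic on the open set `Ω`: its Levi form is positive
semidefinite at every point. -/
def SmoothPshOn (Ω : Set E) (f : E → ℝ) : Prop :=
  ContDiffOn ℝ ∞ f Ω ∧ ∀ z ∈ Ω, ∀ v : E, 0 ≤ leviForm f z v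

/-- The Levi form of `f` at `z` is positive definite. -/
def StrictAt (f : E → ℝ) (z : E) : Prop := ∀ v : E, v ≠ 0 → 0 < leviForm f z v

/-- The core of `Ω`: the set of the points of `Ω` at which no smooth plurisubharmonic function
`Ω → ℝ` which is bounded from above is strictly plurisubharmonic. -/
def core (Ω : Set E) : Set E :=
  {z | z ∈ Ω ∧ ∀ f : E → ℝ, SmoothPshOn Ω f → (∃ C : ℝ, ∀ w ∈ Ω, f w ≤ C) → ¬ StrictAt f z}

/-- `Ω` is strictly pseudoconvex with smooth boundary: there are an open neighbourhood `U` of the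
boundary and a smooth strictly plurisubharmonic function `ρ` on `U` with `Ω ∩ U = {ρ < 0}` and
`dρ ≠ 0` on the boundary. -/
def StrictlyPseudoconvex (Ω : Set E) : Prop :=
  ∃ (U : Set E) (ρ : E → ℝ), IsOpen U ∧ frontier Ω ⊆ U ∧ ContDiffOn ℝ ∞ ρ U ∧
    (∀ z ∈ U, StrictAt ρ z) ∧ Ω ∩ U = {z | z ∈ U ∧ ρ z < 0} ∧ ∀ z ∈ frontier Ω, fderiv ℝ ρ z ≠ 0

/-- `u : V → [-∞, ∞)` is plurisubharmonic: it is upper semicontinuous and for every closed disc
`{z + ζ v : |ζ| ≤ 1}` in `V` the value at the centre is at most the mean value over the boundary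
circle. The mean value of an upper semicontinuous function is the infimum of the mean values of its
continuous majorants `φ`. -/
def PshOn (V : Set E) (u : E → EReal) : Prop :=
  (∀ z ∈ V, u z < ⊤) ∧ UpperSemicontinuousOn u V ∧
    ∀ z v : E, (∀ ζ : ℂ, ‖ζ‖ ≤ 1 → z + ζ • v ∈ V) → ∀ φ : ℂ → ℝ, ContinuousOn φ (sphere 0 1) →
      (∀ ζ ∈ sphere (0 : ℂ) 1, u (z + ζ • v) ≤ (φ ζ : EReal)) →
        u z ≤ ((Real.circleAverage φ 0 1 : ℝ) : EReal)

/-- `A` is pluripolar: every point has a connected open neighbourhood `V` with a plurisubharmonic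
function `u ≢ -∞` on `V` such that `A ∩ V ⊆ {u = -∞}`. -/
def Pluripolar (A : Set E) : Prop :=
  ∀ z : E, ∃ (V : Set E) (u : E → EReal), IsOpen V ∧ IsConnected V ∧ z ∈ V ∧ PshOn V u ∧
    (∃ w ∈ V, u w ≠ ⊥) ∧ ∀ w ∈ A, w ∈ V → u w = ⊥

end Pool.Agent.SC
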