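import Pool.Agent.helper47.SC.Defs
import Pool.Agent.helper90.KMMP.LeviPsh

/-!
# MP_0015b7: a strictly pseudoconvex domain in `ℂ⁴` whose core has positive measure

Coordinates `q = (x, s) = (x, (u, (a₁, a₂))) : ℂ × ℂ × ℂ × ℂ`. Rows `sc:X`: prove `X_stmt`.

Overview. `T ⊂ ℂ³` is a small closed set of positive measure with a dense sequence `s i = (u_i, a_i)`
such that `|t - s i| ≤ D i |t_u - u_i|` on `T`. `X = {(x, u) : |u| < 1/4, |x| ∏ |u - u_i|^(ε_i) < 1}`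
(union over the finite products), `Y = {(x, s) : (x, u) ∈ X, Q < e³}` where
`Q = √(1+|x|²) ∏ |s - s_i|^(ε_i) exp(64 |s|²)`. `h = (h₁, h₂)` is holomorphic on `X` and blows up at
`∂X` and `Ω = {(x, u, b) : (x, u, b - h(x, u)) ∈ Y}`. The complex lines `{(x, s_i)}` are in `Y`, every
smooth bounded above psh function is constant on their images in `Ω`, thus on the images of the discs
`{(x, t) : |x| < 1}`, `t ∈ T`, which are therefore in the core.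

All types are in `Type`. `levi` is `Pool.Agent.helper90.KMMP.levi` (4 times the Levi form); its
library is in `Pool/Agent/helper90/KMMP/{Levi,LeviCirc,LeviPsh,PshA,PshB}.lean`.
-/

open scoped Topology ContDiff
open Set Filter Metric MeasureTheory
open Pool.Agent.helper90.KMMP (levi hess)

namespace Pool.Agent.SC

abbrev C2 := ℂ × ℂ
abbrev C3 := ℂ × ℂ × ℂ
abbrev C4 := ℂ × ℂ × ℂ × ℂ

/-- square of the euclidean norm on `ℂ³` -/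
noncomputable def nsq (s : C3) : ℝ := ‖s.1‖ ^ 2 + ‖s.2.1‖ ^ 2 + ‖s.2.2‖ ^ 2

/-! ### The data -/

structure Data (s : ℕ → C3) (D : ℕ → ℝ) (T : Set C3) : Prop where
  closed : IsClosed T
  small : ∀ t ∈ T, nsq t ≤ 1 / 64
  mem : ∀ i, s i ∈ T
  dense : T ⊆ closure (range s)
  one_le : ∀ i, 1 ≤ D i
  cone : ∀ t ∈ T, ∀ i, nsq (t - s i) ≤ (D i) ^ 2 * ‖t.1 - (s i).1‖ ^ 2
  pos : 0 < volume T

/-- the products `E_0 = 1`, `E_{k+1} = E_k m_k` -/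
def EE (m : ℕ → ℕ) : ℕ → ℕ
  | 0 => 1
  | k + 1 => EE m k * m k

/-- `ε_i = 1 / E_{i+1}` -/
noncomputable def eps (m : ℕ → ℕ) (i : ℕ) : ℝ := 1 / (EE m (i + 1) : ℝ)

/-- the polynomials `G_0 = x`, `G_{k+1} = G_k^{m_k} (u - u_k)`, `p = (x, u)`, `u_k = (s k).1` -/
noncomputable def GG (s : ℕ → C3) (m : ℕ → ℕ) : ℕ → C2 → ℂ
  | 0, p => p.1
  | k + 1, p => (GG s m k p) ^ (m k) * (p.2 - (s k).1)

/-- `B_k = G_k^{m_k}` -/
noncomputable def BB (s : ℕ → C3) (m : ℕ → ℕ) (k : ℕ) (p : C2) : ℂ := (GG s m k p) ^ (m k)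

/-- the domain `X ⊂ ℂ²` -/
def XX (s : ℕ → C3) (m : ℕ → ℕ) : Set C2 := {p | ‖p.2‖ < 1 / 4 ∧ ∃ k, ‖GG s m k p‖ < 1}

/-- the finite products `Q_k(x, s)` -/
noncomputable def QQ (s : ℕ → C3) (m : ℕ → ℕ) (k : ℕ) (q : C4) : ℝ :=
  Real.sqrt (1 + ‖q.1‖ ^ 2) * (∏ i ∈ Finset.range k, (nsq (q.2 - s i)) ^ (eps m i / 2)) *
    Real.exp (64 * nsq q.2)

/-- the domain `Y ⊂ ℂ⁴` (before the shear) -/
def YY (s : ℕ → C3) (m : ℕ → ℕ) : Set C4 :=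
  {q | (q.1, q.2.1) ∈ XX s m ∧ nsq q.2 < 1 / 4 ∧ ∃ k, QQ s m k q < Real.exp 3}

/-- the holomorphic function `∑ (c B_k)^{M_k}`; `h₁`, `h₂` are the cases `c = 1`, `c = 8` -/
noncomputable def hh (s : ℕ → C3) (m M : ℕ → ℕ) (c : ℂ) (p : C2) : ℂ :=
  ∑' k, (c * BB s m k p) ^ (M k)

/-- the shear `Φ(x, u, a) = (x, u, a + h(x, u))` -/
noncomputable def Phi (h₁ h₂ : C2 → ℂ) (q : C4) : C4 :=
  (q.1, q.2.1, q.2.2.1 + h₁ (q.1, q.2.1), q.2.2.2 + h₂ (q.1, q.2.1))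

/-- the inverse shear `Ψ(x, u, b) = (x, u, b - h(x, u))` -/
noncomputable def Psi (h₁ h₂ : C2 → ℂ) (z : C4) : C4 :=
  (z.1, z.2.1, z.2.2.1 - h₁ (z.1, z.2.1), z.2.2.2 - h₂ (z.1, z.2.1))

/-- the domain `Ω = Ψ⁻¹(Y)` -/
def Om (s : ℕ → C3) (m : ℕ → ℕ) (h₁ h₂ : C2 → ℂ) : Set C4 := {z | Psi h₁ h₂ z ∈ YY s m}

/-- the domain `O = {(x, s) : |s|² < 1/4, s ∉ T}` of the defining function -/
def OO (T : Set C3) : Set C4 := {q | nsq q.2 < 1 / 4 ∧ q.2 ∉ T}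

/-- `W(s) = ∑ (ε_i/2) log |s - s_i|²` -/
noncomputable def WW (s : ℕ → C3) (m : ℕ → ℕ) (w : C3) : ℝ :=
  ∑' i, eps m i / 2 * Real.log (nsq (w - s i))

/-- the defining function before the shear -/
noncomputable def VV (s : ℕ → C3) (m : ℕ → ℕ) (q : C4) : ℝ :=
  1 / 2 * Real.log (1 + ‖q.1‖ ^ 2) + WW s m q.2 + 64 * nsq q.2 - 3

/-- the exponents `m`: all at least `10`, and `∑ ε_i log D_i ≤ 1` -/
def MExp (D : ℕ → ℝ) (m : ℕ → ℕ) : Prop :=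
  (∀ k, 10 ≤ m k) ∧ ∀ k, ∑ i ∈ Finset.range k, eps m i * Real.log (D i) ≤ 1

/-- the properties of the exponents `M` -/
structure MGood (s : ℕ → C3) (m M : ℕ → ℕ) : Prop where
  big : ∀ k : ℕ, (k : ℝ) + 2 + ∑ j ∈ Finset.range k, (8 * ((k : ℝ) + 1) ^ (EE m (j + 1))) ^ (M j) ≤
    (3 / 2) ^ (M k)
  small : ∀ k : ℕ, (3 / 4 : ℝ) ^ (M k) ≤ (1 / 2) ^ (k + 2)
  der : ∀ c : ℂ, c = 1 ∨ c = 8 → ∀ k j : ℕ, j ≤ k → ∀ p : C2, ‖p.1‖ ≤ k → ‖p.2‖ ≤ 1 →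
    8 * ‖BB s m k p‖ ≤ 3 / 4 →
      ‖iteratedFDeriv ℂ j (fun q : C2 => (c * BB s m k q) ^ (M k)) p‖ ≤ (1 / 2) ^ k

/-! ### Rows -/

/-- **Row RPD** (one step of the construction of the data). `nsq` facts: for `N : ℕ`, finitely many
points `σ i` (`i < n`) and constants `c i ≥ 4·2^i`, the set
`R n = {t : ‖t.1‖ ≤ 1/16, ‖t.2.1‖ ≤ 1/16, ‖t.2.2‖ ≤ 1/16, ∃ i < n, |t.2 - (σ i).2| > c i |t.1 - (σ i).1|}`
is not everything up to a null set, uniformly in `n`. Precisely: let `Q0` be the closed polydisc of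
radius `1/16` in `ℂ³`. If all `σ i ∈ Q0`, `c i ≥ 4·2^i` then the set of the points `t ∈ Q0` such that
for some `i : ℕ` (all `i`, not only `i < n`) `max ‖t.2.1 - (σ i).2.1‖ ‖t.2.2 - (σ i).2.2‖ > c i ‖t.1 - (σ i).1‖`
has measure at most `(1/2)` of the measure of `Q0` (with `max` norms, on `ℂ × ℂ` the norm is the max
norm, so it is `‖t.2 - (σ i).2‖ > c i ‖t.1 - (σ i).1‖`).
Proof. For each `i`: `‖t.2 - (σ i).2‖ ≤ 1/8`, hence the bad set of `i` is contained in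
`(closedBall (σ i).1 (1/(8 c i))) ×ˢ (closedBall 0 (1/16))` and `volume (closedBall (σ i).1 r) =
(r²) * volume (closedBall 0 1)` in `ℂ` (Complex.volume_closedBall), that is, with
`r = 1/(8 c i) ≤ (1/16)·(1/2)·2^{-i}`, at most `(1/4)·4^{-i}` times the measure of
`closedBall 0 (1/16)`; the sum over `i` is `(1/4)(4/3) = 1/3 ≤ 1/2` of `volume Q0`
(measure_iUnion_le, tsum of a geometric series in ENNReal). -/
def RPD_stmt : Prop := ∀ (σ : ℕ → C3) (c : ℕ → ℝ), (∀ i, σ i ∈ closedBall (0 : C3) (1 / 16)) →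
  (∀ i, 4 * 2 ^ i ≤ c i) →
  volume {t : C3 | t ∈ closedBall (0 : C3) (1 / 16) ∧ ∃ i, c i * ‖t.1 - (σ i).1‖ < ‖t.2 - (σ i).2‖} ≤
    volume (closedBall (0 : C3) (1 / 16)) / 2

/-- **Row REC** (the recursion, from RPD). There are sequences `σ`, `c` with: `σ i ∈ Q0 =
closedBall 0 (1/16)`, `c i ≥ 4·2^i`, for all `i ≠ n`: `‖(σ n).2 - (σ i).2‖ ≤ c i ‖(σ n).1 - (σ i).1‖`
(so that `σ n ∈ T := Q0 \ ⋃ R_i`), and every point `t ∈ Q0` with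
`‖t.2 - (σ i).2‖ ≤ c i ‖t.1 - (σ i).1‖` for all `i` is in the closure of the range of `σ`.
Proof. Fix a sequence `d : ℕ → C3` such that each tail is dense (e.g. `d n = e (Nat.unpair n).1`,
`e = TopologicalSpace.denseSeq C3`). Recursively (Nat.strongRec, or a list of the previous
choices; it is convenient to construct `(σ n, c n)` together as `z : ℕ → C3 × ℝ` with the relation
`R (n, z restricted to < n, z n)`, e.g. with `exists_seq_of_forall_finset_exists` style lemmas or by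
hand with `Nat.strongRecOn` and `Classical.choose`): suppose `σ i, c i`, `i < n`, are chosen with
`c i ≥ 4·2^i` and `σ i ∈ Q0`. The set `S_n = {t ∈ Q0 : ∀ i < n, ‖t.2 - (σ i).2‖ ≤ c i ‖t.1 - (σ i).1‖
∧ t.1 ≠ (σ i).1}` is not empty: by RPD (applied to the sequences which continue with `σ i = σ 0` or
`0`, `c i = 4·2^i` for `i ≥ n`) the set `{t ∈ Q0 : ∀ i < n, ‖..‖ ≤ ..}` has positive measure
(`volume Q0` is positive and finite) and `{t : t.1 = (σ i).1}` is null (`volume` is a product and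
points of `ℂ` are null). Choose `σ n ∈ S_n` with `dist (σ n) (d n) ≤ infDist (d n) S_n + 1/(n+1)`
(Metric.infDist_lt_iff) and `c n ≥ 4·2^n`, `c n ≥ ‖(σ i).2 - (σ n).2‖ / ‖(σ i).1 - (σ n).1‖` for all
`i < n` (finite maximum, or the sum of all these numbers). The inequality for `i < n` holds since
`σ n ∈ S_n`, and for `i > n`, i.e. `‖(σ n).2 - (σ i).2‖ ≤ c i ‖(σ n).1 - (σ i).1‖`, by the choice of
`c i` (as `(σ i).1 ≠ (σ n).1`). Density: let `t` be as in the claim. If `t.1 = (σ j).1` for some `j`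
then `‖t.2 - (σ j).2‖ ≤ 0`, so `t = σ j`. Otherwise `t ∈ S_n` for all `n`, and for `δ > 0` there are
arbitrarily large `n` with `dist (d n) t < δ`; then `infDist (d n) S_n ≤ δ`, `dist (σ n) t ≤ 2δ +
1/(n+1)`. -/
def REC_stmt : Prop := ∃ (σ : ℕ → C3) (c : ℕ → ℝ), (∀ i, σ i ∈ closedBall (0 : C3) (1 / 16)) ∧
  (∀ i, 4 * 2 ^ i ≤ c i) ∧ (∀ n i, ‖(σ n).2 - (σ i).2‖ ≤ c i * ‖(σ n).1 - (σ i).1‖) ∧
  ∀ t ∈ closedBall (0 : C3) (1 / 16), (∀ i, ‖t.2 - (σ i).2‖ ≤ c i * ‖t.1 - (σ i).1‖) →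
    t ∈ closure (range σ)

/-- **Row DAT** (from REC, RPD). Proof: `T = {t ∈ closedBall 0 (1/16) | ∀ i, ‖t.2 - (σ i).2‖ ≤
c i ‖t.1 - (σ i).1‖}` is closed; `nsq t ≤ 3/256 ≤ 1/64`; `volume T ≥ volume Q0 / 2 > 0` by RPD (the
complement of `T` in `Q0` is the set of RPD; `volume Q0` is finite and positive); `nsq (t - σ i) ≤
‖t.1 - (σ i).1‖² + 2 ‖t.2 - (σ i).2‖² ≤ (1 + 2 (c i)²) ‖t.1 - (σ i).1‖²`, `D i = √(1 + 2 (c i)²)`. -/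
def DAT_stmt : Prop := ∃ (s : ℕ → C3) (D : ℕ → ℝ) (T : Set C3), Data s D T

/-- **Row EXP**. Proof: `m k = 10 + ⌈2^(k+1) * log (D k)⌉₊`. `EE m (i+1) ≥ m i` as `EE m i ≥ 1`; thus
`eps m i * log (D i) ≤ log (D i) / m i ≤ (1/2)^(i+1)` and the sum is at most `1`. -/
def EXP_stmt : Prop := ∀ D : ℕ → ℝ, (∀ i, 1 ≤ D i) → ∃ m : ℕ → ℕ, MExp D m

/-- **Row EPS**. Proof: `EE m (i+1) ≥ 10^(i+1)`, so `eps m i ≤ (1/10)^(i+1)`, sum `1/9`. -/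
def EPS_stmt : Prop := ∀ m : ℕ → ℕ, (∀ k, 10 ≤ m k) → (∀ i, 0 < eps m i) ∧ Summable (eps m) ∧
  (∀ k, ∑ i ∈ Finset.range k, eps m i ≤ 1 / 9) ∧ ∀ k, 1 ≤ EE m k

/-- **Row GGF**. Proof: induction on `k`: `‖G_{k+1}‖ = ‖G_k‖^{m_k} ‖u - u_k‖`, and
`‖u - u_k‖ = (‖u - u_k‖^{ε_k})^{E_{k+1}}` (Real.rpow_natCast, `ε_k E_{k+1} = 1`, `E_{k+1} > 0`). -/
def GGF_stmt : Prop := ∀ (s : ℕ → C3) (m : ℕ → ℕ), (∀ k, 10 ≤ m k) → ∀ (k : ℕ) (p : C2),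
  ‖GG s m k p‖ = (‖p.1‖ * ∏ i ∈ Finset.range k, ‖p.2 - (s i).1‖ ^ (eps m i)) ^ (EE m k)

/-- **Row GGB** (elementary properties of `G`, `B`). Here `‖u_i‖ ≤ 1/4`, `‖u‖ < 1/4`, so
`‖u - u_i‖ ≤ 1/2` (even `<`).
(1) `‖G_k‖ < 1 → ‖G_{k+1}‖ < 1`. (2) `‖B_{k+1}‖ ≤ (‖B_k‖/2)^{m_{k+1}}` (`B_{k+1} = (B_k (u-u_k))^{m_{k+1}}`).
(3) off `X` all `‖G_k‖ ≥ 1`, so `1 ≤ ‖G_{k+1}‖ = ‖B_k‖ ‖u - u_k‖ ≤ ‖B_k‖/2`. (4) `‖B_k‖ ≤ ‖x‖^{E_{k+1}}`: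
`‖G_k‖ ≤ ‖x‖^{E_k}` by induction. (5) if `‖G_k‖ < 1` then `8‖B_j‖ ≤ 3/4` for `j > k`: `‖G_{j-1}‖ < 1`
(by (1)), so `‖B_{j-1}‖ ≤ 1` and by (2) `‖B_j‖ ≤ (1/2)^{10}`. (6) smoothness: polynomials. -/
def GGB_stmt : Prop := ∀ (s : ℕ → C3) (m : ℕ → ℕ), (∀ k, 10 ≤ m k) → (∀ i, ‖(s i).1‖ ≤ 1 / 4) →
  (∀ (k : ℕ) (p : C2), ‖p.2‖ < 1 / 4 → ‖GG s m k p‖ < 1 → ‖GG s m (k + 1) p‖ < 1) ∧
  (∀ (k : ℕ) (p : C2), ‖p.2‖ < 1 / 4 → ‖BB s m (k + 1) p‖ ≤ (‖BB s m k p‖ / 2) ^ (m (k + 1))) ∧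
  (∀ (k : ℕ) (p : C2), ‖p.2‖ < 1 / 4 → p ∉ XX s m → 2 ≤ ‖BB s m k p‖) ∧
  (∀ (k : ℕ) (p : C2), ‖p.2‖ < 1 / 4 → ‖BB s m k p‖ ≤ ‖p.1‖ ^ (EE m (k + 1))) ∧
  (∀ (k : ℕ) (p : C2), ‖p.2‖ < 1 / 4 → ‖GG s m k p‖ < 1 → ∀ j, k < j → 8 * ‖BB s m j p‖ ≤ 3 / 4) ∧
  (∀ k, ContDiff ℂ ∞ (GG s m k)) ∧ (∀ k, ContDiff ℂ ∞ (BB s m k)) ∧ IsOpen (XX s m)

/-- **Row POW** (high powers are small with all derivatives where the function is small). Proof: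
`norm_iteratedFDeriv_comp_le` with the outer function `g(z) = z^N` and the inner function `f`: for
`j ≤ n` and `p ∈ K`: `‖D^i g (f p)‖ ≤ N^i θ^(N-i)` for `i ≤ n` (for `N ≥ n`; `iteratedFDeriv` of
a function of one variable has the norm of `iteratedDeriv`, `iteratedDeriv_pow` /
`norm_iteratedFDeriv_eq_norm_iteratedDeriv`; `N.descFactorial i ≤ N^i`, `θ ≤ 1`), thus
`≤ N^n θ^(N-n)`; and on the compact set `K` the derivatives of `f` of orders `1..n` are bounded by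
some `D ≥ 1`, so `≤ D^i`. The bound is `n! N^n θ^(N-n) D^n → 0` as `N → ∞`
(tendsto_pow_const_mul_const_pow_of_abs_lt_one). -/
def POW_stmt : Prop := ∀ f : C2 → ℂ, ContDiff ℂ ∞ f → ∀ K : Set C2, IsCompact K → ∀ θ : ℝ, 0 < θ →
  θ < 1 → ∀ (n : ℕ) (δ : ℝ), 0 < δ → ∀ᶠ N : ℕ in atTop, ∀ j ≤ n, ∀ p ∈ K, ‖f p‖ ≤ θ →
    ‖iteratedFDeriv ℂ j (fun q => (f q) ^ N) p‖ ≤ δ

/-- **Row MCH** (from GGB: `BB` smooth, POW). Proof: choose `M k` by strong recursion: all the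
conditions hold for all large `M k`: `(3/2)^N → ∞`, `(3/4)^N → 0`, and POW with `f = c B_k` (`c = 1, 8`),
`K = closedBall 0 k ×ˢ closedBall 0 1`, `θ = 3/4`, `n = k`, `δ = (1/2)^k` (if `8‖B_k p‖ ≤ 3/4` then
`‖c B_k p‖ ≤ 3/4`). Only the first condition uses `M j`, `j < k`. -/
def MCH_stmt : Prop := ∀ (s : ℕ → C3) (m : ℕ → ℕ), (∀ k, 10 ≤ m k) → (∀ i, ‖(s i).1‖ ≤ 1 / 4) →
  ∃ M : ℕ → ℕ, MGood s m M

/-- **Row LTS** (local version of `contDiff_tsum`). Proof: it is enough to prove `ContDiffOn 𝕜 n` on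
each ball `B ⊆ W`, by induction on `n` for all spaces `F : Type`: we have a ball `B` (convex, thus
preconnected), on which `f i` are smooth and for each `j ≤ n` there are `i₀` and a summable `v` with
`‖iteratedFDeriv 𝕜 j (f i) q‖ ≤ v i` for `i ≥ i₀`, `q ∈ B`. For `n = 0`: continuity of a uniformly
convergent series (the finitely many terms `i < i₀` are separated: replace `v i` by a bound... they
are continuous but possibly unbounded, so shrink the ball or split the sum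
`∑' f = ∑_{i<i₀} + ∑' f (i + i₀)`, `Summable.sum_add_tsum_nat_add`). Step: `hasFDerivAt_tsum_of_isPreconnected`
(for the tail) gives `fderiv (∑' f i) = ∑' fderiv (f i)` on `B`, and `contDiffOn_succ_iff_fderiv_of_isOpen`
and the case `n` for `fderiv 𝕜 (f i)`, using `norm_iteratedFDeriv_fderiv`:
`‖iteratedFDeriv 𝕜 j (fderiv 𝕜 f) q‖ = ‖iteratedFDeriv 𝕜 (j+1) f q‖`. It is best to remove the first
`i₀` terms (for the bounds of order `≤ n`) at the very beginning. -/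
def LTS_stmt : Prop := ∀ (𝕜 : Type) [RCLike 𝕜] (E F : Type) [NormedAddCommGroup E] [NormedSpace 𝕜 E]
  [NormedAddCommGroup F] [NormedSpace 𝕜 F] [CompleteSpace F] (f : ℕ → E → F) (O : Set E), IsOpen O →
  (∀ i, ContDiffOn 𝕜 ∞ (f i) O) →
  (∀ p ∈ O, ∃ W ∈ 𝓝 p, ∀ n : ℕ, ∃ (v : ℕ → ℝ) (i₀ : ℕ), Summable v ∧ ∀ i, i₀ ≤ i → ∀ q ∈ W,
    ‖iteratedFDeriv 𝕜 n (f i) q‖ ≤ v i) →
  ContDiffOn 𝕜 ∞ (fun x => ∑' i, f i x) O ∧
    (∀ x ∈ O, Summable fun i => f i x) ∧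
    (∀ x ∈ O, Summable (fun i => fderiv 𝕜 (f i) x) ∧
      fderiv 𝕜 (fun x => ∑' i, f i x) x = ∑' i, fderiv 𝕜 (f i) x) ∧
    ∀ x ∈ O, Summable (fun i => fderiv 𝕜 (fderiv 𝕜 (f i)) x) ∧
      fderiv 𝕜 (fderiv 𝕜 (fun x => ∑' i, f i x)) x = ∑' i, fderiv 𝕜 (fderiv 𝕜 (f i)) x

/-- **Row HSM** (from LTS, GGB). Proof: LTS with `𝕜 = ℂ`, `f k = (c B_k)^{M_k}`, `O = X`. Let `p ∈ X`,
`‖G_k p‖ < 1`. The set `W = {q : ‖G_k q‖ < 1, ‖q.2‖ < 1/4, ‖q.1‖ < ‖p.1‖ + 1}` is a neighbourhood of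
`p`; on it `8‖B_j q‖ ≤ 3/4` for `j > k` (GGB (5)); for `n` let `i₀ ≥ k+1, n, ‖p.1‖ + 1`; by `der`
`‖D^n f_i (q)‖ ≤ (1/2)^i` for `i ≥ i₀`. -/
def HSM_stmt : Prop := ∀ (s : ℕ → C3) (m M : ℕ → ℕ), (∀ k, 10 ≤ m k) → (∀ i, ‖(s i).1‖ ≤ 1 / 4) →
  MGood s m M → ∀ c : ℂ, c = 1 ∨ c = 8 → ContDiffOn ℂ ∞ (hh s m M c) (XX s m)

/-- **Row DOM** (one dominating term, from GGB). If `p ∈ X`, `‖p.1‖ ≤ κ + 1`, and `c ∈ {1, 8}`, with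
`‖c B_κ(p)‖ ≥ 3/2` and `‖c B_j(p)‖ ≤ 3/4` for all `j > κ`, then `‖h_c(p)‖ ≥ κ + 1`.
Proof: the series converges absolutely (`j > κ`: `‖(c B_j)^{M_j}‖ ≤ (3/4)^{M_j} ≤ (1/2)^{j+2}`), the
terms `j > κ` have sum of norms at most `1`; the terms `j < κ`: `‖B_j‖ ≤ ‖x‖^{E_{j+1}} ≤ (κ+1)^{E_{j+1}}`
(GGB (4)), so `‖(c B_j)^{M_j}‖ ≤ (8 (κ+1)^{E_{j+1}})^{M_j}`; the term `κ` has norm
`≥ (3/2)^{M_κ} ≥ κ + 2 + ∑_{j<κ} ...` (`big`). -/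
def DOM_stmt : Prop := ∀ (s : ℕ → C3) (m M : ℕ → ℕ), (∀ k, 10 ≤ m k) → (∀ i, ‖(s i).1‖ ≤ 1 / 4) →
  MGood s m M → ∀ c : ℂ, c = 1 ∨ c = 8 → ∀ (κ : ℕ) (p : C2), p ∈ XX s m → ‖p.1‖ ≤ κ + 1 →
    3 / 2 ≤ ‖c * BB s m κ p‖ → (∀ j, κ < j → ‖c * BB s m j p‖ ≤ 3 / 4) →
      (κ : ℝ) + 1 ≤ ‖hh s m M c p‖

/-- **Row BLO** (blow up at the boundary of `X`; from GGB, DOM). Proof: let `k₀ ≥ R, ‖p₀.1‖ + 1`.
By GGB (3) and continuity, for `p` near `p₀`: `‖B_j p‖ ≥ 3/2` for all `j ≤ k₀`, `‖p.2‖ < 1/4` and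
`‖p.1‖ ≤ k₀ + 1`. Let `p ∈ X` be such a point. By GGB (5) only finitely many `j` have
`‖B_j p‖ ≥ 3/2`; let `k` be the largest one; `k ≥ k₀`. So `‖B_j p‖ < 3/2` for `j > k` and by GGB (2)
`‖B_{j+1}‖ ≤ (3/4)^{10} < 0.0564` for `j > k`. If `‖B_{k+1} p‖ ≤ 3/4`, DOM with `c = 1`, `κ = k` gives
`‖h_1‖ ≥ k + 1 ≥ R`. Otherwise `3/4 < ‖B_{k+1} p‖ < 3/2`; then DOM with `c = 8`, `κ = k + 1`: `8 ‖B_κ‖ ≥ 6`
and `8‖B_j‖ ≤ 8·0.0564 ≤ 3/4` for `j > κ`; `‖h_8‖ ≥ k + 2 ≥ R`. -/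
def BLO_stmt : Prop := ∀ (s : ℕ → C3) (m M : ℕ → ℕ), (∀ k, 10 ≤ m k) → (∀ i, ‖(s i).1‖ ≤ 1 / 4) →
  MGood s m M → ∀ p₀ : C2, ‖p₀.2‖ < 1 / 4 → p₀ ∉ XX s m → ∀ R : ℝ,
    ∀ᶠ p in 𝓝 p₀, p ∈ XX s m → R ≤ ‖hh s m M 1 p‖ ∨ R ≤ ‖hh s m M 8 p‖

/-- **Row NSQ** (facts on `nsq`). `nsq s = ‖·‖²` of a euclidean norm: write `√(nsq)` as the norm of
`WithLp 2` or use Cauchy–Schwarz by hand. (1) triangle inequality. (2) continuity, smoothness.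
(3) `nsq (r • s) = r² nsq s`. (4) `nsq s = 0 ↔ s = 0`, (5) for real `r ≥ 1` and `nsq t ≤ nsq s`:
`nsq (s - t) ≤ nsq (r • s - t)`: (`nsq (r s - t) - nsq (s - t) = (r²-1) nsq s - 2 (r-1) Re⟨s,t⟩ ≥
(r-1)((r+1) nsq s - 2 nsq s) ≥ 0`). (6) `‖s.1‖² ≤ nsq s` etc. -/
def NSQ_stmt : Prop := (∀ s t : C3, Real.sqrt (nsq (s + t)) ≤ Real.sqrt (nsq s) + Real.sqrt (nsq t)) ∧
  (Continuous nsq) ∧ (ContDiff ℝ ∞ nsq) ∧ (∀ (r : ℝ) (s : C3), nsq (r • s) = r ^ 2 * nsq s) ∧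
  (∀ s, nsq s = 0 ↔ s = 0) ∧ (∀ s, 0 ≤ nsq s) ∧
  (∀ (r : ℝ) (s t : C3), 1 ≤ r → nsq t ≤ nsq s → nsq (s - t) ≤ nsq (r • s - t)) ∧
  (∀ s, ‖s.1‖ ^ 2 ≤ nsq s) ∧ (∀ s, ‖s.2.1‖ ^ 2 ≤ nsq s) ∧ (∀ s, ‖s.2.2‖ ^ 2 ≤ nsq s) ∧
  (∀ s t : C3, nsq (s - t) = nsq (t - s)) ∧
  (∀ s t : C3, nsq s < 1 / 4 → nsq t ≤ 1 / 64 → nsq (s - t) ≤ 1)

/-- **Row QAN** (from NSQ, EPS). `Q_{k+1} ≤ Q_k` (as `nsq (s - s_i) ≤ 1`, exponent `≥ 0`), and `Q_k` is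
continuous and `≥ 0`. -/
def QAN_stmt : Prop := ∀ (s : ℕ → C3) (m : ℕ → ℕ), (∀ k, 10 ≤ m k) → (∀ i, nsq (s i) ≤ 1 / 64) →
  (∀ (k : ℕ) (q : C4), nsq q.2 < 1 / 4 → QQ s m (k + 1) q ≤ QQ s m k q) ∧
  (∀ k, Continuous (QQ s m k)) ∧ ∀ k q, 0 ≤ QQ s m k q

/-- **Row QSM** (from NSQ, EPS). Proof: if `nsq s > 529/10000`, i.e. `√nsq > 23/100`, then by the triangle
inequality `√(nsq (s - s_i)) ≥ 23/100 - 1/8 = 105/1000 ≥ 1/10`, so each factor `nsq(s - s_i)^{ε_i/2} ≥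
(1/10)^{ε_i}` and the product is `≥ (1/10)^{1/9}`; `exp(64·0.0529) = exp(3.3856)`; and
`(1/10)^{1/9} = exp(-(log 10)/9) ≥ exp(-0.26)` (`log 10 < 2.34`; e.g. from `log 10 = log 2 + log 5`, or
`10 ≤ exp(2.34)` with `exp 1 > 2.7182818283`: `exp 2.34 = (exp 1)^(2.34)`; in fact it is enough that
`10 ≤ exp(3)`: `(1/10)^{1/9} ≥ exp(-1/3)` and `3.3856 - 1/3 = 3.0522 > 3`). So `Q_k > e³`. -/
def QSM_stmt : Prop := ∀ (s : ℕ → C3) (m : ℕ → ℕ), (∀ k, 10 ≤ m k) → (∀ i, nsq (s i) ≤ 1 / 64) →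
  ∀ (k : ℕ) (q : C4), QQ s m k q < Real.exp 3 → nsq q.2 ≤ 529 / 10000

/-- **Row QTT** (from GGF, NSQ, EPS). Over `T` there is no boundary. Proof: let `t ∈ T`, `(x, t.1) ∈ X`;
so there is `k` with `‖G_k‖ < 1`, i.e. by GGF `P = ‖x‖ ∏_{i<k} ‖t.1 - u_i‖^{ε_i} < 1` (`EE m k ≥ 1`,
`P ≥ 0`). `nsq(t - s_i)^{ε_i/2} ≤ (D_i² ‖t.1 - u_i‖²)^{ε_i/2} = D_i^{ε_i} ‖t.1-u_i‖^{ε_i}`;
`∏ D_i^{ε_i} = exp(∑ ε_i log D_i) ≤ e`. With `p = ∏ ‖t.1 - u_i‖^{ε_i} ≤ 1` we get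
`Q_k ≤ √(1+‖x‖²) · e · p · exp(64 nsq t) ≤ e² √(p² + ‖x‖²p²) ≤ e² √2 < e³`. -/
def QTT_stmt : Prop := ∀ (s : ℕ → C3) (D : ℕ → ℝ) (T : Set C3) (m : ℕ → ℕ), Data s D T → MExp D m →
  ∀ t ∈ T, ∀ x : ℂ, (x, t.1) ∈ XX s m → ∃ k, QQ s m k (x, t) < Real.exp 3

/-- **Row LIN** (from NSQ, EPS). The lines over the points `s i` are in `Y`: `G_{i+1}(x, u_i) = 0`,
`Q_{i+1}(x, s_i) = 0` (the factor `0^{ε_i/2} = 0`). And `(x, t) ∈ Y` for `t ∈ T`, `‖x‖ < 1` by QTT. -/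
def LIN_stmt : Prop := ∀ (s : ℕ → C3) (D : ℕ → ℝ) (T : Set C3) (m : ℕ → ℕ), Data s D T → MExp D m →
  (∀ (i : ℕ) (x : ℂ), (x, s i) ∈ YY s m) ∧ ∀ t ∈ T, ∀ x : ℂ, ‖x‖ < 1 → (x, t) ∈ YY s m

/-- **Row YYO** (from GGB, NSQ, QAN). `Y` is open. (Preimages of open sets under continuous
functions.) -/
def YYO_stmt : Prop := ∀ (s : ℕ → C3) (m : ℕ → ℕ), (∀ k, 10 ≤ m k) → (∀ i, nsq (s i) ≤ 1 / 64) →
  IsOpen (YY s m)

/-- **Row YYC** (from QSM, NSQ, EPS). `Y` is connected. Proof: let `(x, w) ∈ Y`. For `r ∈ [0,1]`: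
(a) `(r x, w) ∈ Y`: `‖G_k(rx, u)‖ ≤ ‖G_k(x, u)‖` (induction, or GGF) and `Q_k(rx, w) ≤ Q_k(x, w)`.
(b) `(0, r w) ∈ Y`: `‖G_0(0, ·)‖ = 0 < 1`, `‖r w.1‖ < 1/4`; if `nsq (r w) < 3/64` then
`Q_0(0, rw) = exp(64 nsq(rw)) < e³`. If `nsq (r w) ≥ 3/64 ≥ nsq s_i` (so `r > 0`) then by NSQ (5)
with `1/r ≥ 1`: `nsq (r w - s_i) ≤ nsq (w - s_i)`, so `Q_k(0, rw) ≤ Q_k(0, w) ≤ Q_k(x, w)`.
So `(x, w)` is joined to `(0, w)` and to `(0, 0)` in `Y` by images of `[0, 1]`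
(`isPreconnected_of_forall`, or joinedIn). -/
def YYC_stmt : Prop := ∀ (s : ℕ → C3) (m : ℕ → ℕ), (∀ k, 10 ≤ m k) → (∀ i, nsq (s i) ≤ 1 / 64) →
  IsConnected (YY s m)

/-- **Row LGS** (the function `log nsq`). Proof: (1) smooth where `nsq ≠ 0`. (2) the Levi form is
`≥ 0`: `levi_real_comp` with `ψ = log`: `levi nsq w v = 4 nsq v`, `(D nsq(v))² + (D nsq(iv))² =
4 |⟨w, v⟩|² ≤ 4 nsq w nsq v`, thus `levi (log nsq) = 4 nsq v/nsq w - 4|⟨w,v⟩|²/(nsq w)² ≥ 0`.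
(3) `levi (½ log(1 + ‖x‖²)) x v = 2 ‖v‖²/(1+‖x‖²)² > 0` in the same way. -/
def LGS_stmt : Prop := (∀ w : C3, w ≠ 0 → ContDiffAt ℝ ∞ (fun w => Real.log (nsq w)) w) ∧
  (∀ w : C3, w ≠ 0 → ∀ v : C3, 0 ≤ levi (fun w => Real.log (nsq w)) w v) ∧
  (∀ w v : C3, levi nsq w v = 4 * nsq v) ∧
  (∀ x v : ℂ, v ≠ 0 → 0 < levi (fun x : ℂ => 1 / 2 * Real.log (1 + ‖x‖ ^ 2)) x v)

/-- **Row LGB** (from LGS, NSQ). The derivatives of the translates of `log nsq` are bounded, uniformly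
in the translation: `iteratedFDeriv ℝ n (fun w => log (nsq (w - a))) w = iteratedFDeriv ℝ n (log ∘ nsq) (w - a)`
(`iteratedFDeriv_comp_sub'`...), and on the compact set `{w : δ ≤ nsq w ≤ 1}` the continuous function
`iteratedFDeriv ℝ n (log ∘ nsq)` is bounded. -/
def LGB_stmt : Prop := ∀ (δ : ℝ) (n : ℕ), 0 < δ → ∃ C : ℝ, ∀ a w : C3, δ ≤ nsq (w - a) →
  nsq (w - a) ≤ 1 → ‖iteratedFDeriv ℝ n (fun w => Real.log (nsq (w - a))) w‖ ≤ C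

/-- **Row WSM** (from LTS, LGS, LGB, NSQ, EPS). Proof: LTS with `𝕜 = ℝ`, `O = {w : nsq w < 1/4, w ∉ T}`,
`f i w = (ε_i/2) log nsq(w - s_i)`. For `p ∈ O`: `T` is closed, so there is a neighbourhood `W ⊆ O` of
`p` and `δ > 0` with `nsq (q - t) ≥ δ` for `q ∈ W`, `t ∈ T` (`nsq ≥ ‖·‖²` for the max norm,
`Metric.infDist`), and `nsq (q - s_i) ≤ 1` by NSQ, so `‖D^n f_i‖ ≤ C ε_i` by LGB. Levi form: the second
derivative of `W` is the sum of the second derivatives (last part of LTS), so `levi W w v = ∑' levi (f i) w v ≥ 0`.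
The terms are `≤ 0` (`log` of a number `≤ 1`), so the partial sums are `≥ W` and converge to `W`
(`HasSum.tendsto_sum_nat`). -/
def WSM_stmt : Prop := ∀ (s : ℕ → C3) (D : ℕ → ℝ) (T : Set C3) (m : ℕ → ℕ), Data s D T →
  (∀ k, 10 ≤ m k) →
  ContDiffOn ℝ ∞ (WW s m) {w | nsq w < 1 / 4 ∧ w ∉ T} ∧
  (∀ w : C3, nsq w < 1 / 4 → w ∉ T → ∀ v : C3, 0 ≤ levi (WW s m) w v) ∧
  (∀ w : C3, nsq w < 1 / 4 → w ∉ T →
    Tendsto (fun k => ∑ i ∈ Finset.range k, eps m i / 2 * Real.log (nsq (w - s i))) atTop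
      (𝓝 (WW s m w)) ∧
    ∀ k, WW s m w ≤ ∑ i ∈ Finset.range k, eps m i / 2 * Real.log (nsq (w - s i)))

/-- **Row VSM** (from WSM, LGS, NSQ). `V` is smooth and strictly plurisubharmonic on `O`. Proof: sum of
`½ log(1+‖x‖²)`, `W(s)`, `64 nsq s` and a constant, composed with the projections (`levi_comp` with
the linear maps `fst`, `snd`, or direct); for `v = (v₁, v₂) ≠ 0`: if `v₁ ≠ 0` the first term is `> 0`,
otherwise `64·4·nsq v₂ > 0`. (`levi (..) x 0 = 0`, `levi_zero_right`.) -/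
def VSM_stmt : Prop := ∀ (s : ℕ → C3) (D : ℕ → ℝ) (T : Set C3) (m : ℕ → ℕ), Data s D T →
  (∀ k, 10 ≤ m k) → IsOpen (OO T) ∧ ContDiffOn ℝ ∞ (VV s m) (OO T) ∧
    ∀ q ∈ OO T, ∀ v : C4, v ≠ 0 → 0 < levi (VV s m) q v

/-- **Row VQQ** (from WSM, NSQ). On `O`: `V < 0` iff some `Q_k < e³`. Proof: on `O` all
`nsq (s - s_i) > 0` and `log Q_k = ½ log(1+‖x‖²) + ∑_{i<k} (ε_i/2) log nsq(s - s_i) + 64 nsq s`, which is
`≥ V + 3` and tends to `V + 3` (WSM). -/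
def VQQ_stmt : Prop := ∀ (s : ℕ → C3) (D : ℕ → ℝ) (T : Set C3) (m : ℕ → ℕ), Data s D T →
  (∀ k, 10 ≤ m k) → ∀ q ∈ OO T, (VV s m q < 0 ↔ ∃ k, QQ s m k q < Real.exp 3)

/-- **Row GRD** (from VSM, WSM, NSQ, EPS). `dV ≠ 0` on `V = 0`. Proof: suppose `fderiv ℝ V q = 0`,
`q = (x, w) ∈ O`, `V q = 0`. If `x ≠ 0`: the function `r ↦ V (r x, w)` has derivative
`‖x‖²/(1+‖x‖²) > 0` at `r = 1`, but by the chain rule it is `fderiv V q (x, 0) = 0`. If `x = 0`: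
`V(0, w) = W(w) + 64 nsq w - 3 = 0` and `W ≤ 0`, so `nsq w ≥ 3/64`. For real `r ≥ 1` close to `1`:
`nsq (r w - s_i) ≥ nsq (w - s_i)` (NSQ), so all the terms of `W` are `≥`, `W (r w) ≥ W w`
(tsum comparison, or limits of the partial sums, WSM) and `V(0, rw) - V(0, w) ≥ 64 (r²-1) nsq w ≥
3 (r² - 1) ≥ 6 (r - 1)`, so the derivative of `r ↦ V(0, rw)` at `1` is `≥ 6`, but it is
`fderiv V q (0, w) = 0`. -/
def GRD_stmt : Prop := ∀ (s : ℕ → C3) (D : ℕ → ℝ) (T : Set C3) (m : ℕ → ℕ), Data s D T →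
  (∀ k, 10 ≤ m k) → ∀ q ∈ OO T, VV s m q = 0 → fderiv ℝ (VV s m) q ≠ 0

/-- **Row CMP** (Levi form of a composition with a holomorphic map; `ContDiffAt ℂ 2` instead of
analytic). Proof: as `Pool.Agent.helper90.KMMP.levi_comp`; the only place where `AnalyticAt ℂ f x` was
used is that `κ(ζ) = f (x + ζ v)` is analytic at `0` and that `f` is real smooth: `κ` is
`ContDiffAt ℂ 2` at `0`, hence complex differentiable near `0`, hence analytic at `0`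
(`DifferentiableOn.analyticAt`, functions of one complex variable). -/
def CMP_stmt : Prop := ∀ (E F : Type) [NormedAddCommGroup E] [NormedSpace ℂ E] [CompleteSpace E]
  [NormedAddCommGroup F] [NormedSpace ℂ F] [CompleteSpace F] (u : F → ℝ) (f : E → F) (x : E),
  ContDiffAt ℝ 2 u (f x) → ContDiffAt ℂ 2 f x → ∀ v : E,
    levi (fun y => u (f y)) x v = levi u (f x) (fderiv ℂ f x v)

/-- **Row SHR** (properties of the shear). Let `h₁, h₂` be smooth (`ℂ`) on the open set `X ⊆ ℂ²`.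
`Φ`, `Ψ` are inverse to each other (everywhere), smooth on `{q : (q.1, q.2.1) ∈ X}`. -/
def SHR_stmt : Prop := ∀ h₁ h₂ : C2 → ℂ, (∀ q, Psi h₁ h₂ (Phi h₁ h₂ q) = q) ∧
  (∀ z, Phi h₁ h₂ (Psi h₁ h₂ z) = z) ∧ ∀ X : Set C2, IsOpen X → ContDiffOn ℂ ∞ h₁ X →
    ContDiffOn ℂ ∞ h₂ X → IsOpen {q : C4 | (q.1, q.2.1) ∈ X} ∧
    ContDiffOn ℂ ∞ (Phi h₁ h₂) {q : C4 | (q.1, q.2.1) ∈ X} ∧
    ContDiffOn ℂ ∞ (Psi h₁ h₂) {q : C4 | (q.1, q.2.1) ∈ X}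

/-- **Row OMC** (from SHR, YYO, YYC). `Ω` is open, connected, and has a nonempty frontier. Proof: `Ω =
Φ '' Y` (inverse bijections), `Φ` is continuous on `{(x,u) ∈ X} ⊇ Y`; `Ω` is the preimage of `Y` under
`Ψ`, and `Ω ⊆ {(z.1,z.2.1) ∈ X}` on which `Ψ` is continuous, so `Ω` is open
(`ContinuousOn.isOpen_inter_preimage`). It is nonempty and not everything (`‖z.2.1‖ < 1/4` on `Ω`), so
its frontier is not empty (`nonempty_frontier_iff`). -/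
def OMC_stmt : Prop := ∀ (s : ℕ → C3) (m : ℕ → ℕ) (h₁ h₂ : C2 → ℂ), (∀ k, 10 ≤ m k) →
  (∀ i, nsq (s i) ≤ 1 / 64) → IsOpen (XX s m) → ContDiffOn ℂ ∞ h₁ (XX s m) →
  ContDiffOn ℂ ∞ h₂ (XX s m) → IsOpen (Om s m h₁ h₂) ∧ IsConnected (Om s m h₁ h₂) ∧
    (frontier (Om s m h₁ h₂)).Nonempty

/-- **Row FRO** (the boundary of `Ω`; from QSM, QTT, VSM, VQQ, SHR, OMC, NSQ). Let `h₁, h₂` blow up at
the boundary of `X`. Every `z ∈ ∂Ω` has `(z.1, z.2.1) ∈ X`, `Ψ z ∈ O` and `V (Ψ z) = 0`.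
Proof. Step 1: on `Ω` we have `nsq (Ψ z).2 ≤ 529/10000` (QSM), so `‖z.2.1‖ ≤ 23/100`,
`‖z.2.2.1 - h₁(z.1,z.2.1)‖ ≤ 1`, `‖z.2.2.2 - h₂(z.1,z.2.1)‖ ≤ 1`. Let `z ∈ frontier Ω`; `z ∈ closure Ω`,
so `‖z.2.1‖ ≤ 23/100 < 1/4`. Step 2: `(z.1,z.2.1) ∈ X`: otherwise with `R = ‖z.2.2.1‖ + ‖z.2.2.2‖ + 3` by the
blow up, for `z' ∈ Ω` close to `z`, `‖h₁‖ ≥ R` or `‖h₂‖ ≥ R` at `(z'.1, z'.2.1)`, while
`‖h_i‖ ≤ ‖z'.2.2.i‖ + 1 ≤ R - 1`, contradiction. Step 3: `Ψ` is continuous at `z`, so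
`nsq (Ψ z).2 ≤ 529/10000 < 1/4`. `Ω` is open, so `z ∉ Ω`. `(Ψ z).2 ∉ T`, otherwise `z ∈ Ω` by QTT. So
`Ψ z ∈ O` and `V ∘ Ψ` is continuous at `z`. By VQQ `V (Ψ z') < 0` for `z' ∈ Ω` close to `z`, so
`V (Ψ z) ≤ 0`; and `V (Ψ z) < 0` would give `z ∈ Ω` by VQQ. -/
def FRO_stmt : Prop := ∀ (s : ℕ → C3) (D : ℕ → ℝ) (T : Set C3) (m : ℕ → ℕ) (h₁ h₂ : C2 → ℂ),
  Data s D T → MExp D m → IsOpen (XX s m) → ContDiffOn ℂ ∞ h₁ (XX s m) →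
  ContDiffOn ℂ ∞ h₂ (XX s m) →
  (∀ p₀ : C2, ‖p₀.2‖ < 1 / 4 → p₀ ∉ XX s m → ∀ R : ℝ,
    ∀ᶠ p in 𝓝 p₀, p ∈ XX s m → R ≤ ‖h₁ p‖ ∨ R ≤ ‖h₂ p‖) →
  ∀ z ∈ frontier (Om s m h₁ h₂), (z.1, z.2.1) ∈ XX s m ∧ Psi h₁ h₂ z ∈ OO T ∧
    VV s m (Psi h₁ h₂ z) = 0

/-- **Row SPC** (from FRO, VSM, VQQ, GRD, CMP, SHR). `Ω` is strictly pseudoconvex with smooth boundary.
Proof: `U = {z | (z.1, z.2.1) ∈ X ∧ Ψ z ∈ O}` (open, `ContinuousOn.isOpen_inter_preimage`),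
`ρ = V ∘ Ψ`, smooth on `U`. Levi form: CMP gives `levi ρ z v = levi V (Ψ z) (fderiv ℂ Ψ z v)` and
`fderiv ℂ Ψ z v ≠ 0` for `v ≠ 0` since `Φ ∘ Ψ = id` (chain rule); `leviForm = levi / 4`. `Ω ∩ U = {ρ < 0}` by
VQQ. On the frontier `V (Ψ z) = 0`; if `fderiv ℝ ρ z = 0` then, as `V = ρ ∘ Φ` (everywhere),
`fderiv ℝ V (Ψ z) = 0` by the chain rule at `Ψ z` (`Φ (Ψ z) = z`), contradicting GRD. -/
def SPC_stmt : Prop := ∀ (s : ℕ → C3) (D : ℕ → ℝ) (T : Set C3) (m : ℕ → ℕ) (h₁ h₂ : C2 → ℂ),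
  Data s D T → MExp D m → IsOpen (XX s m) → ContDiffOn ℂ ∞ h₁ (XX s m) →
  ContDiffOn ℂ ∞ h₂ (XX s m) →
  (∀ p₀ : C2, ‖p₀.2‖ < 1 / 4 → p₀ ∉ XX s m → ∀ R : ℝ,
    ∀ᶠ p in 𝓝 p₀, p ∈ XX s m → R ≤ ‖h₁ p‖ ∨ R ≤ ‖h₂ p‖) →
  StrictlyPseudoconvex (Om s m h₁ h₂)

/-- **Row LMX** (maximum principle in an annulus with a logarithm). Let `g : ℂ → ℝ` be `C²` with
`levi g ≥ 0` and `g ≤ C`, `g ≤ A` on the unit circle. Then `g ≤ A` outside the unit disc.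
Proof: let `ε, δ > 0`, `R > 1`, `F(z) = g z - ε log ‖z‖ + δ ‖z‖²` on the compact annulus
`1 ≤ ‖z‖ ≤ R`; `F` is `C²` there and `levi F = levi g + 0 + 4 δ ‖v‖² > 0` (`log ‖z‖ = ½ log ‖z‖²` has
Levi form `0` away from `0` by `levi_real_comp`; `levi_normSq`). `F` has its maximum at some point
`z₁`; if `1 < ‖z₁‖ < R` then `z₁` is a local maximum, and along the lines `z₁ + t` and `z₁ + t i` the
second derivatives are `≤ 0`, contradicting `levi F z₁ 1 > 0` (see `levi_eq_deriv`,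
`isLocalMin_of_deriv_deriv_pos`; or `maxPrinciple` of PshA/PshB if convenient). So
`F ≤ max (A + δ, C - ε log R + δ R²)`; first let `δ → 0`, then `R → ∞`, then `ε → 0`: for `‖z‖ ≥ 1`
`g z ≤ A`. -/
def LMX_stmt : Prop := ∀ (g : ℂ → ℝ) (A C : ℝ), ContDiff ℝ 2 g → (∀ z v, 0 ≤ levi g z v) →
  (∀ z, g z ≤ C) → (∀ z : ℂ, ‖z‖ = 1 → g z ≤ A) → ∀ z : ℂ, 1 ≤ ‖z‖ → g z ≤ A

/-- **Row LIO** (Liouville theorem for smooth subharmonic functions; from LMX). Proof: let `A` be the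
maximum of `g` over the closed unit disc, attained at `z₀`. By LMX `g ≤ A` everywhere. Let `w ∈ ℂ`,
`r = w - z₀`. The function `ζ ↦ g (z₀ + r ζ)` is smooth with Levi form `≥ 0`, thus
(`le_circleAverage_of_levi`) `A = g z₀ ≤` its average over the unit circle; as it is `≤ A` and
continuous, it is `= A` on the whole circle, in particular `g w = A` (`ζ = 1`). -/
def LIO_stmt : Prop := ∀ (g : ℂ → ℝ) (C : ℝ), ContDiff ℝ 2 g → (∀ z v, 0 ≤ levi g z v) →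
  (∀ z, g z ≤ C) → ∀ z w, g z = g w

/-- **Row COR** (from LIN, YYO, SHR, LIO, CMP). The image of `{(x, t) : ‖x‖ < 1, t ∈ T}` is in the core.
Proof: let `f` be smooth psh bounded above on `Ω`. For each `i` the curve `x ↦ Φ (x, s i)` is in `Ω`
(LIN; `z ∈ Ω ↔ Ψ z ∈ Y`, `Ψ (Φ q) = q`) and is `ContDiff ℂ ∞` in `x` (since `(x, u_i) ∈ X` for all
`x`), so `g_i (x) = f (Φ (x, s i))` is smooth with `levi ≥ 0` (CMP; `leviForm = levi/4`) and bounded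
above, thus constant (LIO). Let `t ∈ T`, `‖x‖ < 1`. The function `w ↦ f (Φ (x, w)) - f (Φ (0, w))` is
continuous at `w = t` (`(x,t), (0,t) ∈ Y` open, `Φ` continuous there, `f` continuous on `Ω`), and is
`0` at all `w = s i`; as `t ∈ closure (range s)`, it is `0` at `t`. So `x ↦ f (Φ (x, t))` is constant
on the unit disc and its Levi form is `0` there; by CMP it is equal to `levi f (Φ (x, t)) v` with
`v = fderiv ℂ (fun x => Φ (x, t)) x 1`, whose first coordinate is `1`, so `v ≠ 0` and `f` is not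
strictly psh at `Φ (x, t)`. -/
def COR_stmt : Prop := ∀ (s : ℕ → C3) (D : ℕ → ℝ) (T : Set C3) (m : ℕ → ℕ) (h₁ h₂ : C2 → ℂ),
  Data s D T → MExp D m → IsOpen (XX s m) → ContDiffOn ℂ ∞ h₁ (XX s m) →
  ContDiffOn ℂ ∞ h₂ (XX s m) → IsOpen (YY s m) →
  ∀ t ∈ T, ∀ x : ℂ, ‖x‖ < 1 → Phi h₁ h₂ (x, t) ∈ core (Om s m h₁ h₂)

/-- **Row MEA** (the shear preserves measure). Proof: `S = {z | ‖z.1‖ < 1 ∧ (Ψ z).2 ∈ T}`. It is
measurable: it is the intersection of the open set `{‖z.1‖ < 1, ‖z.2.1‖ < 1/4}` (on which `Ψ` is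
continuous) with the preimage of a closed set. `volume` on `ℂ × ℂ × ℂ × ℂ` is the product measure. If
`volume S = 0` then (`Measure.measure_prod_null`, twice) for a.e. `x`, a.e. `u` the slice
`{b : ℂ × ℂ | (x, u, b) ∈ S}` is null; for `‖x‖ < 1` it is the translate by `h(x, u)` of
`T_u = {a | (u, a) ∈ T}`, so `T_u` is null for a.e. `u`, so `volume T = 0` (`ball 0 1` has positive
measure, so there is such an `x`). Contradiction. -/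
def MEA_stmt : Prop := ∀ (T : Set C3) (h₁ h₂ : C2 → ℂ), IsClosed T → (∀ t ∈ T, ‖t.1‖ < 1 / 4) →
  0 < volume T → ContinuousOn h₁ {p : C2 | ‖p.1‖ < 1 ∧ ‖p.2‖ < 1 / 4} →
  ContinuousOn h₂ {p : C2 | ‖p.1‖ < 1 ∧ ‖p.2‖ < 1 / 4} →
  0 < volume {z : C4 | ‖z.1‖ < 1 ∧ (Psi h₁ h₂ z).2 ∈ T}

/-- **Row PCI** (circles). Let `u` be psh on `V`, `{z + ζ v : ‖ζ‖ ≤ 1} ⊆ V`, `u z ≠ ⊥`. Then the set of
`θ ∈ (0, 2π)` with `u (z + e^{iθ} v) = ⊥` is null (`Real.circleAverage φ 0 1 = (2π)⁻¹ ∫_0^{2π} φ (circleMap 0 1 θ)`). Proof: `N = {ζ ∈ sphere 0 1 | u (z + ζ v) = ⊥} =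
⋂_n {u < -n}` is a `G_δ` of the circle (`u` is usc), so its preimage in the circle parametrisation is
measurable; if it is not null, it contains a compact set `K' ⊂ (0, 2π)` of positive measure
(`MeasurableSet.exists_isCompact_lt_add`...), its image `K` is a compact subset of `N`. `u` is bounded above
on the circle by a real `C` (usc on a compact set with values `< ⊤`). For `n : ℕ`, `-n ≤ C`, the set
`{ζ ∈ sphere | u (z + ζ v) < -n}` is open in the sphere and contains `K`; by Urysohn (on `ℂ`, or on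
the subtype; `exists_continuous_zero_one_of_isClosed`; or with distance functions) there is a
continuous `φ : sphere → [-n, C]`, `-n` on `K` and `C` where `u ≥ -n`. Then `u ≤ φ` on the sphere and
`u z ≤ circleAverage φ ≤ C - (n + C) |K'|/(2π)`. As `n → ∞` we get `u z = ⊥`, contradiction. -/
def PCI_stmt : Prop := ∀ (V : Set C4) (u : C4 → EReal), IsOpen V → PshOn V u → ∀ z v : C4,
  (∀ ζ : ℂ, ‖ζ‖ ≤ 1 → z + ζ • v ∈ V) → u z ≠ ⊥ →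
    volume {θ : ℝ | θ ∈ Ioo 0 (2 * Real.pi) ∧
      u (z + Complex.exp (θ * Complex.I) • v) = ⊥} = 0

/-- **Row PBA** (balls; from PCI). Proof: let `N = {w ∈ ball z r | u w = ⊥}`, measurable (`G_δ`:
`{w ∈ ball z r | u w < -n}` is open for all `n`). The set `P = {(θ, v) : θ ∈ (0, 2π), ‖v‖ < r,
u (z + e^{iθ} v) = ⊥}` is measurable; for each `v` its slice is null by PCI (the closed disc is in
`ball z r ⊆ V`). By Fubini (`measure_prod_null` and `measure_ae_null_of_prod_null`, or lintegral swap)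
for a.e. `θ` the set `{v : ‖v‖ < r, u (z + e^{iθ} v) = ⊥}` is null; it is the image of `N - z` under the
rotation by `e^{-iθ}`; a linear homeomorphism maps null sets to null sets (e.g.
`MeasureTheory.Measure.addHaar_preimage_linearMap`, or: multiplication by a unit complex number is a
linear isometry of `ℂ`, `LinearIsometryEquiv.measurePreserving`, and products; `volume` on `C4` is an
additive Haar measure). So `volume N = 0`. -/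
def PBA_stmt : Prop := ∀ (V : Set C4) (u : C4 → EReal), IsOpen V → PshOn V u → ∀ (z : C4) (r : ℝ),
  ball z r ⊆ V → u z ≠ ⊥ → volume {w | w ∈ ball z r ∧ u w = ⊥} = 0

/-- **Row PCO** (from PBA). Proof: `N = {w ∈ V | u w = ⊥}`, `G = {z ∈ V | ∃ r > 0, volume (N ∩ ball z r)
= 0}`. `G` is open, nonempty (contains `w₀` with `u w₀ ≠ ⊥`, by PBA). It is closed in `V`: let
`z ∈ V ∩ closure G`, `ball z (2r) ⊆ V`. There is `w ∈ G` with `dist w z < r/2`, and a small ball around `w`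
in which `N` is null; that ball has positive measure, so it contains `w'` with `u w' ≠ ⊥`,
`dist w' z < r`; `ball w' r ⊆ ball z (2r) ⊆ V`, so `volume (N ∩ ball w' r) = 0` by PBA and `z ∈ ball w' r`, thus
`z ∈ G`. So `G = V` (`IsPreconnected.subset_of_closure_inter_subset`) and `N` is null
(`measure_null_of_locally_null`). -/
def PCO_stmt : Prop := ∀ (V : Set C4) (u : C4 → EReal), IsOpen V → IsConnected V → PshOn V u →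
  (∃ w ∈ V, u w ≠ ⊥) → volume {w | w ∈ V ∧ u w = ⊥} = 0

/-- **Row PPN** (from PCO): pluripolar sets are null (`measure_null_of_locally_null`). -/
def PPN_stmt : Prop := ∀ A : Set C4, Pluripolar A → volume A = 0

/-- **Row FIN** (assembly, from DAT, EXP, MCH, GGB, HSM, BLO, OMC, SPC, YYO, COR, MEA, PPN, SHR). -/
def FIN_stmt : Prop := ∃ Ω : Set (ℂ × ℂ × ℂ × ℂ), IsOpen Ω ∧ IsConnected Ω ∧
  (frontier Ω).Nonempty ∧ StrictlyPseudoconvex Ω ∧ 0 < volume (core Ω) ∧ ¬ Pluripolar (core Ω)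

end Pool.Agent.SC
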